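import Pool.Agent.Helper65.BR.Goals

/-!
# Machines with a memory of blocks: the parameters for large `n`
-/

set_option autoImplicit false

namespace Pool.Agent.Helper16.BR

open Pool.Agent.Helper65.LinSpace Pool.Agent.Helper78.Mpc Pool.Agent.Helper28.Ram Finset Filter
open Pool.Agent.Helper65.RT (qT CT)
open Pool.Agent.Helper28.Long (ZL)
open Pool.Agent.Helper65.BR

/-- the digits of the code of the bounds -/
theorem digits {n s a m : ℕ} (hs : s ≤ ZL n) (ha : a ≤ ZL n) (hm : m ≤ ZL n) :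
    s + (n + 2) * (a + (n + 2) * m) < (n + 2) ^ 3 ∧
      bT n (s + (n + 2) * (a + (n + 2) * m)) 0 = s ∧
      bT n (s + (n + 2) * (a + (n + 2) * m)) 1 = a ∧
      bT n (s + (n + 2) * (a + (n + 2) * m)) 2 = m := by
  have hz := Pool.Agent.Helper28.Long.ZL_le n
  have h1 : s < n + 2 := by omega
  have h2 : a < n + 2 := by omega
  have h3 : m < n + 2 := by omega
  have hn : 0 < n + 2 := by omega
  have e1 : (s + (n + 2) * (a + (n + 2) * m)) / (n + 2) = a + (n + 2) * m := by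
    rw [Nat.add_mul_div_left _ _ hn, Nat.div_eq_of_lt h1, zero_add]
  have e2 : (s + (n + 2) * (a + (n + 2) * m)) / (n + 2) ^ 2 = m := by
    rw [pow_two, ← Nat.div_div_eq_div_mul, e1, Nat.add_mul_div_left _ _ hn, Nat.div_eq_of_lt h2,
      zero_add]
  refine ⟨?_, ?_, ?_, ?_⟩
  · have h4 : m + 1 ≤ n + 2 := h3
    have h5 : a + (n + 2) * m + 1 ≤ (n + 2) * (n + 2) := by
      calc a + (n + 2) * m + 1 ≤ (n + 2) + (n + 2) * m := by omega
        _ = (n + 2) * (m + 1) := by ring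
        _ ≤ (n + 2) * (n + 2) := Nat.mul_le_mul_left _ h4
    calc s + (n + 2) * (a + (n + 2) * m) < (n + 2) + (n + 2) * (a + (n + 2) * m) := by omega
      _ = (n + 2) * (a + (n + 2) * m + 1) := by ring
      _ ≤ (n + 2) * ((n + 2) * (n + 2)) := Nat.mul_le_mul_left _ h5
      _ = (n + 2) ^ 3 := by ring
  · unfold bT dig
    rw [pow_zero, Nat.div_one, Nat.add_mul_mod_self_left, Nat.mod_eq_of_lt h1, min_eq_left hs]
  · unfold bT dig
    rw [pow_one, e1, Nat.add_mul_mod_self_left, Nat.mod_eq_of_lt h2, min_eq_left ha]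
  · unfold bT dig
    rw [e2, Nat.mod_eq_of_lt h3, min_eq_left hm]

/-- the inequalities between natural numbers -/
theorem nats {n u l s A Q t r g k : ℕ} (hul : u ≤ l) (hu : 0 < u) (hA : 0 < A)
    (hQ : Q = n / (l + 4)) (ht : t = Q / (4 * A)) (hr : r = Nat.sqrt t) (hg : g = r + 1)
    (hk : k = Q / g) (hb : 8 * (s + 1) + 16 * A ≤ Q) (hl : l + 4 ≤ n) :
    g * (A * g) + g * A ≤ 4 * (n / u + 1) ∧ k * (g + 2) ≤ 4 * (n / u + 1) ∧
      k * g ≤ Q ∧ Q < (k + 1) * g ∧ Q < 4 * A * (g * g) ∧ Q * (l + 4) ≤ n ∧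
      (k + 1) * ((l + 4) * g) ≤ 4 * (n + 1) ∧ 2 * ((s + 1) / A + 2) ≤ g * g ∧ 2 * g ≤ Q := by
  have F1 : Q * (l + 4) ≤ n := hQ ▸ Nat.div_mul_le_self _ _
  have F2 : t * (4 * A) ≤ Q := ht ▸ Nat.div_mul_le_self _ _
  have F2' : Q < (t + 1) * (4 * A) := by
    have h1 : Q / (4 * A) < t + 1 := by omega
    exact (Nat.div_lt_iff_lt_mul (by omega)).1 h1
  have F3 : r * r ≤ t := hr ▸ Nat.sqrt_le t
  have F3' : t + 1 ≤ g * g := by
    rw [hg, hr]
    exact Nat.lt_succ_sqrt t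
  have hg0 : 0 < g := by omega
  have F4 : k * g ≤ Q := hk ▸ Nat.div_mul_le_self _ _
  have F4' : Q < (k + 1) * g := by
    have h1 : Q / g < k + 1 := by omega
    exact (Nat.div_lt_iff_lt_mul hg0).1 h1
  have hQu : Q ≤ n / u := by
    rw [hQ]
    exact Nat.div_le_div_left (by omega) hu
  -- `t` and `r` are positive
  have ht1 : 1 ≤ t := by
    rw [ht, Nat.one_le_div_iff (by omega)]
    omega
  have hr1 : 1 ≤ r := by
    rw [hr]
    exact Nat.sqrt_pos.2 ht1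
  have hg2 : 2 ≤ g := by omega
  have hgg : g * g + g ≤ 6 * t := by
    rw [hg]
    nlinarith
  have hgg2 : g * g ≤ 4 * t := by
    rw [hg]
    nlinarith
  have hgQ : g * g ≤ Q := by
    calc g * g ≤ 4 * t := hgg2
      _ = t * (4 * 1) := by ring
      _ ≤ t * (4 * A) := Nat.mul_le_mul_left _ (Nat.mul_le_mul_left _ hA)
      _ ≤ Q := F2
  have h2g : 2 * g ≤ Q := (Nat.mul_le_mul_right g hg2).trans hgQ
  have hQA : Q < 4 * A * (g * g) := by
    calc Q < (t + 1) * (4 * A) := F2'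
      _ ≤ (g * g) * (4 * A) := Nat.mul_le_mul_right _ F3'
      _ = 4 * A * (g * g) := by ring
  refine ⟨?_, ?_, F4, F4', hQA, F1, ?_, ?_, h2g⟩
  · have h1 : 2 * (g * (A * g) + g * A) ≤ 3 * Q := by
      calc 2 * (g * (A * g) + g * A) = 2 * A * (g * g + g) := by ring
        _ ≤ 2 * A * (6 * t) := Nat.mul_le_mul_left _ hgg
        _ = 3 * (t * (4 * A)) := by ring
        _ ≤ 3 * Q := Nat.mul_le_mul_left _ F2
    omega
  · have h1 : k * (g + 2) ≤ 2 * Q := by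
      calc k * (g + 2) ≤ k * (2 * g) := Nat.mul_le_mul_left _ (by omega)
        _ = 2 * (k * g) := by ring
        _ ≤ 2 * Q := Nat.mul_le_mul_left _ F4
    omega
  · have h1 : k * ((l + 4) * g) ≤ n := by
      calc k * ((l + 4) * g) = k * g * (l + 4) := by ring
        _ ≤ Q * (l + 4) := Nat.mul_le_mul_right _ F4
        _ ≤ n := F1
    have h2 : (l + 4) * g ≤ n := by
      have h3 : ((l + 4) * g) * ((l + 4) * g) ≤ n * n := by
        calc ((l + 4) * g) * ((l + 4) * g) = (l + 4) * ((g * g) * (l + 4)) := by ring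
          _ ≤ (l + 4) * (Q * (l + 4)) := Nat.mul_le_mul_left _ (Nat.mul_le_mul_right _ hgQ)
          _ ≤ (l + 4) * n := Nat.mul_le_mul_left _ F1
          _ ≤ n * n := Nat.mul_le_mul_right _ hl
      exact Nat.mul_self_le_mul_self_iff.1 h3
    calc (k + 1) * ((l + 4) * g) = k * ((l + 4) * g) + (l + 4) * g := by ring
      _ ≤ 4 * (n + 1) := by omega
  · have h1 : A * (2 * ((s + 1) / A) + 4) < A * (g * g) := by
      have h2 : (s + 1) / A * A ≤ s + 1 := Nat.div_mul_le_self _ _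
      have h3 : A * (2 * ((s + 1) / A) + 4) = 2 * ((s + 1) / A * A) + 4 * A := by ring
      have h4 : 4 * A * (g * g) = 4 * (A * (g * g)) := by ring
      rw [h3]
      rw [h4] at hQA
      omega
    have h2 := lt_of_mul_lt_mul_left h1 (Nat.zero_le _)
    omega

/-- the real inequalities -/
theorem reals {K n u l s a x Q A : ℝ} (hK : 1 ≤ K) (hu : 1000000 * K ≤ u) (hul : u ≤ l)
    (hs : 0 ≤ s) (ha : 0 ≤ a) (hA : A = a + 1)
    (h1 : x ^ 2 * A * l ^ 4 ≤ 8 * K * n ^ 3) (h2 : s * l ^ 4 ≤ 2 * K * n)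
    (h3 : a * l ^ 4 ≤ 2 * K * n) (h4 : l ^ 4 ≤ 2 * K * n)
    (hQ : n < (Q + 1) * (l + 4)) (hQ0 : 0 ≤ Q) :
    10 * l ≤ n ∧ 8 * (s + 1) + 16 * A ≤ Q ∧ 64 * A * x ^ 2 ≤ Q ^ 3 ∧
      A * (l + 4) * u ^ 2 ≤ n ∧ (l + 4) * u ≤ n ∧ l + 4 ≤ n := by
  have hl : 1000000 * K ≤ l := hu.trans hul
  have hl1 : 1000000 ≤ l := by nlinarith
  have hl0 : 0 < l := by linarith
  -- `l ^ 3` is small
  have l3 : 1000000 * l ^ 3 ≤ 2 * n := by
    have e1 : (1000000 * K) * l ^ 3 ≤ l * l ^ 3 :=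
      mul_le_mul_of_nonneg_right hl (by positivity)
    have e2 : l * l ^ 3 = l ^ 4 := by ring
    have e3 : K * (1000000 * l ^ 3) ≤ K * (2 * n) := by linarith
    exact le_of_mul_le_mul_left e3 (by linarith)
  have l2 : 1000000 * l ^ 2 ≤ l ^ 3 := by
    have e1 : 1000000 * l ^ 2 ≤ l * l ^ 2 := mul_le_mul_of_nonneg_right hl1 (by positivity)
    have e2 : l * l ^ 2 = l ^ 3 := by ring
    linarith
  have l1 : 1000000 * l ≤ l ^ 2 := by
    have e1 : 1000000 * l ≤ l * l := mul_le_mul_of_nonneg_right hl1 (by positivity)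
    have e2 : l * l = l ^ 2 := by ring
    linarith
  have hl4 : l + 4 ≤ 2 * l := by linarith
  have as3 : ∀ v : ℝ, 0 ≤ v → v * l ^ 4 ≤ 2 * K * n → 1000000 * (v * l ^ 3) ≤ 2 * n := by
    intro v hv h
    have e1 : (v * l ^ 3) * (1000000 * K) ≤ (v * l ^ 3) * l :=
      mul_le_mul_of_nonneg_left hl (by positivity)
    have e2 : (v * l ^ 3) * l = v * l ^ 4 := by ring
    have e3 : K * (1000000 * (v * l ^ 3)) ≤ K * (2 * n) := by linarith
    exact le_of_mul_le_mul_left e3 (by linarith)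
  have as1 : ∀ v : ℝ, 0 ≤ v → v * l ^ 4 ≤ 2 * K * n → 1000000 * (v * l) ≤ n := by
    intro v hv h
    have e1 := as3 v hv h
    have e2 : (v * l) * 1000000 ≤ (v * l) * l ^ 2 :=
      mul_le_mul_of_nonneg_left (by linarith) (by positivity)
    have e3 : (v * l) * l ^ 2 = v * l ^ 3 := by ring
    have e4 : 0 ≤ v * l := by positivity
    linarith
  have s1 := as1 s hs h2
  have a1 := as1 a ha h3
  have a3 := as3 a ha h3
  -- `Q` is large
  have Q1 : n ≤ 4 * (Q * l) := by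
    have e1 : (Q + 1) * (l + 4) ≤ (Q + 1) * (2 * l) :=
      mul_le_mul_of_nonneg_left hl4 (by linarith)
    have e2 : 10 * l ≤ n := by linarith
    linarith
  refine ⟨by linarith, ?_, ?_, ?_, ?_, by linarith⟩
  · have e1 : (8 * (s + 1) + 16 * A) * l ≤ Q * l := by
      have e2 : (8 * (s + 1) + 16 * A) * l = 8 * (s * l) + 16 * (a * l) + 24 * l := by
        rw [hA]
        ring
      rw [e2]
      linarith
    exact le_of_mul_le_mul_right e1 hl0
  · -- multiply by `64 * l ^ 4`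
    have e1 : (4 * (Q * l)) ^ 3 ≥ n ^ 3 := pow_le_pow_left₀ (by linarith) Q1 3
    have e2 : 64 * A * x ^ 2 * l ^ 4 ≤ Q ^ 3 * l ^ 4 := by
      have e3 : 64 * A * x ^ 2 * l ^ 4 = 64 * (x ^ 2 * A * l ^ 4) := by ring
      have e4 : (4 * (Q * l)) ^ 3 = 64 * (Q ^ 3 * l ^ 3) := by ring
      have e5 : Q ^ 3 * l ^ 4 = (Q ^ 3 * l ^ 3) * l := by ring
      have e6 : (Q ^ 3 * l ^ 3) * (1000000 * K) ≤ (Q ^ 3 * l ^ 3) * l :=
        mul_le_mul_of_nonneg_left hl (by positivity)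
      have e7 : K * n ^ 3 ≤ K * (64 * (Q ^ 3 * l ^ 3)) :=
        mul_le_mul_of_nonneg_left (by linarith) (by linarith)
      rw [e3, e5]
      have e8 : 0 ≤ K * (Q ^ 3 * l ^ 3) := by positivity
      nlinarith
    exact le_of_mul_le_mul_right e2 (by positivity)
  · have e1 : u ^ 2 ≤ l ^ 2 := pow_le_pow_left₀ (by linarith) hul 2
    have e2 : A * (l + 4) * u ^ 2 ≤ A * (2 * l) * l ^ 2 := by
      have hA0 : 0 ≤ A := by linarith
      exact mul_le_mul (mul_le_mul_of_nonneg_left hl4 hA0) e1 (by positivity) (by positivity)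
    have e3 : A * (2 * l) * l ^ 2 = 2 * (a * l ^ 3) + 2 * l ^ 3 := by
      rw [hA]
      ring
    linarith
  · have e1 : (l + 4) * u ≤ (2 * l) * l := mul_le_mul hl4 hul (by linarith) (by positivity)
    have e2 : (2 * l) * l = 2 * l ^ 2 := by ring
    linarith

/-- the consequences for the number of phases -/
theorem phases {n u l Q g k A x : ℝ} (hn : 0 ≤ n) (hu : 0 ≤ u) (hl : 0 ≤ l) (hQ : 0 < Q)
    (hg : 0 < g) (hk : 0 ≤ k) (hA : 0 < A) (hx : 0 ≤ x)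
    (f1 : k * g ≤ Q) (f2 : Q < (k + 1) * g) (f3 : Q < 4 * A * (g * g)) (f4 : Q * (l + 4) ≤ n)
    (f5 : 2 * g ≤ Q) (r1 : 64 * A * x ^ 2 ≤ Q ^ 3) (r2 : A * (l + 4) * u ^ 2 ≤ n)
    (r3 : (l + 4) * u ≤ n) :
    (k + 1) * (l + 4) * u ≤ 4 * n ∧ 2 * x ≤ k * (g * g) := by
  constructor
  · have e1 : (k * (l + 4) * u) ^ 2 * Q ≤ (2 * n) ^ 2 * Q := by
      calc (k * (l + 4) * u) ^ 2 * Q ≤ (k * (l + 4) * u) ^ 2 * (4 * A * (g * g)) :=
            mul_le_mul_of_nonneg_left f3.le (sq_nonneg _)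
        _ = (k * g) ^ 2 * (4 * A * ((l + 4) * u) ^ 2) := by ring
        _ ≤ Q ^ 2 * (4 * A * ((l + 4) * u) ^ 2) :=
            mul_le_mul_of_nonneg_right (pow_le_pow_left₀ (by positivity) f1 2) (by positivity)
        _ = 4 * ((A * (l + 4) * u ^ 2) * (Q * (l + 4))) * Q := by ring
        _ ≤ 4 * (n * n) * Q := by
            refine mul_le_mul_of_nonneg_right ?_ hQ.le
            refine mul_le_mul_of_nonneg_left ?_ (by norm_num)
            exact mul_le_mul r2 f4 (by positivity) hn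
        _ = (2 * n) ^ 2 * Q := by ring
    have e2 : (k * (l + 4) * u) ^ 2 ≤ (2 * n) ^ 2 := le_of_mul_le_mul_right e1 hQ
    have e3 : k * (l + 4) * u ≤ 2 * n := le_of_sq_le_sq e2 (by positivity)
    have e4 : (k + 1) * (l + 4) * u = k * (l + 4) * u + (l + 4) * u := by ring
    linarith
  · have e1 : Q / 2 ≤ k * g := by linarith
    have e2 : Q / 2 * g ≤ k * (g * g) := by
      have := mul_le_mul_of_nonneg_right e1 hg.le
      linarith
    refine le_trans ?_ e2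
    have e3 : 4 * A * (2 * x) ^ 2 ≤ 4 * A * (Q / 2 * g) ^ 2 := by
      have e4 : Q ^ 2 * Q ≤ Q ^ 2 * (4 * A * (g * g)) :=
        mul_le_mul_of_nonneg_left f3.le (sq_nonneg _)
      have e5 : Q ^ 2 * Q = Q ^ 3 := by ring
      have e6 : 4 * A * (2 * x) ^ 2 = (64 * A * x ^ 2) / 4 := by ring
      have e7 : 4 * A * (Q / 2 * g) ^ 2 = (Q ^ 2 * (4 * A * (g * g))) / 4 := by ring
      rw [e6, e7]
      linarith
    have e8 : (2 * x) ^ 2 ≤ (Q / 2 * g) ^ 2 := le_of_mul_le_mul_left e3 (by positivity)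
    exact le_of_sq_le_sq e8 (by positivity)

/-- PACKET BR-ASY -/
theorem asy : ASY_stmt := by
  intro C
  obtain ⟨K, hK⟩ : ∃ K : ℝ, K = max C 1 := ⟨_, rfl⟩
  have hK1 : 1 ≤ K := hK ▸ le_max_right _ _
  have hCK : C ≤ K := hK ▸ le_max_left _ _
  obtain ⟨k1, hk1⟩ := exists_nat_gt (1000000 * K)
  filter_upwards [Pool.Agent.Helper28.Long.le_ZL C, ev_ll_ge k1, eventually_ge_atTop 1] with
    n hZ hu hn x s m a hs hx hsa
  have hn1 : (1 : ℝ) ≤ n := by exact_mod_cast hn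
  have hlog : ((ll n : ℕ) : ℝ) = (Nat.log 2 n : ℝ) + 1 := by
    unfold ll
    push_cast
    ring
  obtain ⟨u, hu'⟩ : ∃ u : ℕ, u = ll n := ⟨_, rfl⟩
  obtain ⟨l, hl⟩ : ∃ l : ℕ, l = m + u := ⟨_, rfl⟩
  have hlr : (l : ℝ) = (m : ℝ) + ((Nat.log 2 n : ℝ) + 1) := by
    rw [hl, hu', Nat.cast_add, hlog]
  rw [← hlr] at hx hsa
  rw [← hlog, ← hu'] at hZ
  rw [← hu'] at hu
  have hur : 1000000 * K ≤ (u : ℝ) := hk1.le.trans (by exact_mod_cast hu)
  have hu1 : (1 : ℝ) ≤ u := by linarith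
  have hul : (u : ℝ) ≤ l := by
    rw [hl]
    push_cast
    have : (0 : ℝ) ≤ m := Nat.cast_nonneg _
    linarith
  have hl1 : (1 : ℝ) ≤ l := hu1.trans hul
  have hs1 : (1 : ℝ) ≤ s := by exact_mod_cast hs
  have ha0 : (0 : ℝ) ≤ a := Nat.cast_nonneg _
  have hx0 : (0 : ℝ) ≤ x := Nat.cast_nonneg _
  have hm0 : (0 : ℝ) ≤ m := Nat.cast_nonneg _
  have hl4 : (0 : ℝ) < (l : ℝ) ^ 4 := by positivity
  -- the hypotheses of `reals`
  have hC2 : C * ((n : ℝ) + 1) ≤ 2 * K * n := by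
    have e1 : C * ((n : ℝ) + 1) ≤ K * ((n : ℝ) + 1) :=
      mul_le_mul_of_nonneg_right hCK (by linarith)
    have e2 : K * ((n : ℝ) + 1) ≤ K * (2 * n) := mul_le_mul_of_nonneg_left (by linarith) (by linarith)
    linarith
  have hC3 : C * ((n : ℝ) + 1) ^ 3 ≤ 8 * K * n ^ 3 := by
    have e1 : C * ((n : ℝ) + 1) ^ 3 ≤ K * ((n : ℝ) + 1) ^ 3 :=
      mul_le_mul_of_nonneg_right hCK (by positivity)
    have e2 : ((n : ℝ) + 1) ^ 3 ≤ (2 * n) ^ 3 := pow_le_pow_left₀ (by linarith) (by linarith) 3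
    have e3 : K * ((n : ℝ) + 1) ^ 3 ≤ K * (2 * n) ^ 3 := mul_le_mul_of_nonneg_left e2 (by linarith)
    have e4 : K * (2 * (n : ℝ)) ^ 3 = 8 * K * n ^ 3 := by ring
    linarith
  have g2 : (s : ℝ) * l ^ 4 ≤ C * ((n : ℝ) + 1) := by
    have : (s : ℝ) * l ^ 4 ≤ ((s : ℝ) + a) * l ^ 4 :=
      mul_le_mul_of_nonneg_right (by linarith) hl4.le
    linarith
  have g3 : (a : ℝ) * l ^ 4 ≤ C * ((n : ℝ) + 1) := by
    have : (a : ℝ) * l ^ 4 ≤ ((s : ℝ) + a) * l ^ 4 :=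
      mul_le_mul_of_nonneg_right (by linarith) hl4.le
    linarith
  have g4 : (l : ℝ) ^ 4 ≤ C * ((n : ℝ) + 1) := by
    have : 1 * (l : ℝ) ^ 4 ≤ s * l ^ 4 := mul_le_mul_of_nonneg_right hs1 hl4.le
    linarith
  -- the bounds by `ZL`
  have hu2 : (u : ℝ) ^ 2 ≤ (l : ℝ) ^ 2 := pow_le_pow_left₀ (by linarith) hul 2
  have hl2 : (l : ℝ) ^ 2 ≤ (l : ℝ) ^ 4 := pow_le_pow_right₀ hl1 (by norm_num)
  have hl3 : (l : ℝ) ^ 3 ≤ (l : ℝ) ^ 4 := pow_le_pow_right₀ hl1 (by norm_num)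
  have zs : s ≤ ZL n := by
    refine hZ s ?_
    rw [le_div_iff₀ (by positivity)]
    have := mul_le_mul_of_nonneg_left (hu2.trans hl2) (by linarith : (0 : ℝ) ≤ s)
    linarith
  have za : a ≤ ZL n := by
    refine hZ a ?_
    rw [le_div_iff₀ (by positivity)]
    have := mul_le_mul_of_nonneg_left (hu2.trans hl2) ha0
    linarith
  have zm : m ≤ ZL n := by
    refine hZ m ?_
    rw [le_div_iff₀ (by positivity)]
    have e1 : (m : ℝ) ≤ l := by
      rw [hl]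
      push_cast
      linarith
    have e2 : (m : ℝ) * u ^ 2 ≤ l * l ^ 2 := mul_le_mul e1 hu2 (by positivity) (by linarith)
    have e3 : (l : ℝ) * l ^ 2 = l ^ 3 := by ring
    linarith
  obtain ⟨d0, d1, d2, d3⟩ := digits zs za zm
  obtain ⟨T, hT⟩ : ∃ T : ℕ, T = s + (n + 2) * (a + (n + 2) * m) := ⟨_, rfl⟩
  rw [← hT] at d0 d1 d2 d3
  refine ⟨T, d0, d1, d2, d3, ?_⟩
  obtain ⟨Q, hQ⟩ : ∃ Q : ℕ, Q = n / (l + 4) := ⟨_, rfl⟩
  obtain ⟨A, hA⟩ : ∃ A : ℕ, A = a + 1 := ⟨_, rfl⟩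
  obtain ⟨t, ht⟩ : ∃ t : ℕ, t = Q / (4 * A) := ⟨_, rfl⟩
  obtain ⟨r, hr⟩ : ∃ r : ℕ, r = Nat.sqrt t := ⟨_, rfl⟩
  obtain ⟨g, hg⟩ : ∃ g : ℕ, g = r + 1 := ⟨_, rfl⟩
  obtain ⟨k, hk⟩ : ∃ k : ℕ, k = Q / g := ⟨_, rfl⟩
  have hlT : lT n T = l + 4 := by
    unfold lT
    rw [d3, hl, hu']
  have hgT : gT n T = g := by
    unfold gT
    rw [hlT, d2, ← hA, ← hQ, ← ht, ← hr, ← hg]
  have hkT : kT n T = k := by
    unfold kT
    rw [hlT, hgT, ← hQ, ← hk]
  have hQ1 : (n : ℝ) < ((Q : ℝ) + 1) * ((l : ℝ) + 4) := by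
    have e1 : n < (Q + 1) * (l + 4) := by
      have e2 : n / (l + 4) < Q + 1 := by omega
      exact (Nat.div_lt_iff_lt_mul (by omega)).1 e2
    exact_mod_cast e1
  have hQ2 : (Q : ℝ) * ((l : ℝ) + 4) ≤ n := by
    have e1 : Q * (l + 4) ≤ n := hQ ▸ Nat.div_mul_le_self _ _
    exact_mod_cast e1
  have hA' : (A : ℝ) = (a : ℝ) + 1 := by
    rw [hA]
    push_cast
    ring
  rw [← hA'] at hx
  obtain ⟨q1, q2, q3, q4, q5, q6⟩ := reals (x := (x : ℝ)) hK1 hur hul (by linarith : (0 : ℝ) ≤ s)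
    ha0 hA' (hx.trans hC3) (g2.trans hC2) (g3.trans hC2) (g4.trans hC2) hQ1
    (Nat.cast_nonneg Q)
  have q2' : 8 * (s + 1) + 16 * A ≤ Q := by exact_mod_cast q2
  have q6' : l + 4 ≤ n := by exact_mod_cast q6
  have hul' : u ≤ l := by omega
  have hu0 : 0 < u := by
    rw [hu']
    exact ll_pos n
  have hA0 : 0 < A := by omega
  obtain ⟨p1, p2, p3, p4, p5, p6, p7, p8, p9⟩ := nats hul' hu0 hA0 hQ ht hr hg hk q2' q6'
  have hg0 : 0 < g := by omega
  obtain ⟨w1, w2⟩ := phases (n := (n : ℝ)) (u := (u : ℝ)) (l := (l : ℝ)) (Q := (Q : ℝ))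
    (g := (g : ℝ)) (k := (k : ℝ)) (A := (A : ℝ)) (x := (x : ℝ)) (Nat.cast_nonneg _)
    (Nat.cast_nonneg _) (Nat.cast_nonneg _)
    (by
      have : 0 < Q := by omega
      exact_mod_cast this)
    (by exact_mod_cast hg0) (Nat.cast_nonneg _) (by exact_mod_cast hA0) hx0
    (by exact_mod_cast p3) (by exact_mod_cast p4) (by exact_mod_cast p5) hQ2
    (by exact_mod_cast p9) q3 q4 q5
  have w1' : (k + 1) * (l + 4) * u ≤ 4 * n := by exact_mod_cast w1
  have w2' : 2 * x ≤ k * (g * g) := by exact_mod_cast w2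
  rw [hgT, hkT, ← hA]
  refine ⟨?_, by omega, ?_⟩
  · unfold oT
    rw [hgT, hkT, hlT, d2, ← hA]
    have hq : qT n = n / u + 1 := by
      unfold Pool.Agent.Helper65.RT.qT
      rw [hu']
    have c3 : (k + 1) * (l + 4) ≤ 4 * (n / u + 1) := by
      have e1 : n < (n / u + 1) * u := (Nat.div_lt_iff_lt_mul hu0).1 (by omega)
      have e2 : (k + 1) * (l + 4) * u < 4 * (n / u + 1) * u := by
        calc (k + 1) * (l + 4) * u ≤ 4 * n := w1'
          _ < 4 * ((n / u + 1) * u) := by omega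
          _ = 4 * (n / u + 1) * u := by ring
      exact (lt_of_mul_lt_mul_right e2 (Nat.zero_le _)).le
    rw [hq]
    unfold le01
    rw [if_pos p1, if_pos p2, if_pos c3, if_pos p7]
  · have e1 : g * g ≤ 2 * (g * g - ((s + 1) / A + 2)) := by omega
    have e2 : k * (g * g) ≤ k * (2 * (g * g - ((s + 1) / A + 2))) := Nat.mul_le_mul_left _ e1
    have e3 : k * (2 * (g * g - ((s + 1) / A + 2))) =
        2 * (k * (g * g - ((s + 1) / A + 2))) := by ring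
    rw [e3] at e2
    omega

end Pool.Agent.Helper16.BR
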